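import Mathlib
import Pool.Agent.Lib.MP_5b6163_an.Core

set_option autoImplicit false

open Set

namespace Pool.Agent.Results.MP_5b6163_an.CountableExample

/-- The shift on bi-infinite sequences. -/
def shift {A : Type*} (x : ℤ → A) : ℤ → A := fun i => x (i + 1)

/-- A subshift: a closed set `X` of bi-infinite sequences with `σ(X) = X`. -/
def IsSubshift {A : Type*} [TopologicalSpace A] (X : Set (ℤ → A)) : Prop :=
  IsClosed X ∧ shift '' X = X

/-- An endomorphism: a continuous self-map of `X` that commutes with the shift. -/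
def IsEndo {A : Type*} [TopologicalSpace A] (X : Set (ℤ → A)) (τ : X → X) : Prop :=
  Continuous τ ∧ ∀ x y : X, (y : ℤ → A) = shift x → (τ y : ℤ → A) = shift (τ x)

/-- Every injective endomorphism is surjective. -/
def Surjunctive {A : Type*} [TopologicalSpace A] (X : Set (ℤ → A)) : Prop :=
  ∀ τ : X → X, IsEndo X τ → Function.Injective τ → Function.Surjective τ

/-- Every surjective endomorphism is injective. -/
def Injunctive {A : Type*} [TopologicalSpace A] (X : Set (ℤ → A)) : Prop :=
  ∀ τ : X → X, IsEndo X τ → Function.Surjective τ → Function.Injective τ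

open Pool.Agent.Lib.MP5b6163

lemma countable_XX : XX.Countable := by
  have h1 : (Set.range (fun p : ℕ × ℕ × ℤ => Full p.1 p.2.1 p.2.2)).Countable :=
    Set.countable_range _
  have h2 : (Set.range (fun p : ℕ × ℤ => Z1 p.1 p.2)).Countable := Set.countable_range _
  have h3 : (Set.range (fun p : ℕ × ℤ => Z2 p.1 p.2)).Countable := Set.countable_range _
  have h4 : (Set.range (fun p : Fin 4 × ℤ => Wl p.1 p.2)).Countable := Set.countable_range _
  have h5 : (Set.range (fun p : Fin 5 => Cn p)).Countable := Set.countable_range _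
  refine ((((h1.union h2).union h3).union h4).union h5).mono ?_
  intro x hx
  rcases classify hx with ⟨n, j, t, rfl⟩ | ⟨n, t, rfl⟩ | ⟨n, t, rfl⟩ | ⟨i, t, rfl⟩ | ⟨i, rfl⟩
  · exact Or.inl (Or.inl (Or.inl (Or.inl ⟨(n, j, t), rfl⟩)))
  · exact Or.inl (Or.inl (Or.inl (Or.inr ⟨(n, t), rfl⟩)))
  · exact Or.inl (Or.inl (Or.inr ⟨(n, t), rfl⟩))
  · exact Or.inl (Or.inr ⟨(i, t), rfl⟩)
  · exact Or.inr ⟨i, rfl⟩

lemma TT_shift (x : ℤ → Fin 5) : TT (shift x) = shift (TT x) := by
  funext k
  have h1 : shift x (k - 3) = x (k + 1 - 3) := by unfold shift; congr 1; ring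
  have h2 : shift x (k - 2) = x (k + 1 - 2) := by unfold shift; congr 1; ring
  have h3 : shift x (k - 1) = x (k + 1 - 1) := by unfold shift; congr 1; ring
  change TT (shift x) k = TT x (k + 1)
  unfold TT
  rw [h1, h2, h3]
  rfl

/-- Over every finite alphabet with at least five letters there is a countable subshift that is
injunctive but not surjunctive. -/
theorem result (A : Type*) [Finite A] [TopologicalSpace A] [DiscreteTopology A]
    (hA : 5 ≤ Nat.card A) :
    ∃ X : Set (ℤ → A), IsSubshift X ∧ X.Countable ∧ Injunctive X ∧ ¬ Surjunctive X := by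
  classical
  have : Fintype A := Fintype.ofFinite A
  obtain ⟨e⟩ : Nonempty (Fin 5 ↪ A) := by
    apply Function.Embedding.nonempty_of_card_le
    rw [Nat.card_eq_fintype_card] at hA
    simpa using hA
  obtain ⟨r, hr⟩ : ∃ r : A → Fin 5, ∀ a, r (e a) = a :=
    ⟨Function.invFun e, Function.leftInverse_invFun e.injective⟩
  let E : (ℤ → Fin 5) → (ℤ → A) := fun x i => e (x i)
  let R : (ℤ → A) → (ℤ → Fin 5) := fun y i => r (y i)
  have hRE : ∀ x, R (E x) = x := fun x => funext fun i => hr (x i)
  have hEc : Continuous E := continuous_pi fun i =>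
    (continuous_of_discreteTopology (f := e)).comp (continuous_apply i)
  have hRc : Continuous R := continuous_pi fun i =>
    (continuous_of_discreteTopology (f := r)).comp (continuous_apply i)
  have hEs : ∀ x, E (shift x) = shift (E x) := fun _ => rfl
  have hRs : ∀ y, R (shift y) = shift (R y) := fun _ => rfl
  have hsh : ∀ x : ℤ → Fin 5, shift x = sh 1 x := fun _ => rfl
  have hER : ∀ y : (E '' XX), E (R y) = y := by
    rintro ⟨y, x, hx, rfl⟩
    simp only [hRE]
  have hRm : ∀ y : (E '' XX), R y ∈ XX := by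
    rintro ⟨y, x, hx, rfl⟩
    simpa only [hRE] using hx
  refine ⟨E '' XX, ⟨(compact_XX.image hEc).isClosed, ?_⟩, countable_XX.image E, ?_, ?_⟩
  · ext y
    constructor
    · rintro ⟨_, ⟨x, hx, rfl⟩, rfl⟩
      exact ⟨shift x, by rw [hsh]; exact XX_sh hx 1, rfl⟩
    · rintro ⟨x, hx, rfl⟩
      refine ⟨E (sh (-1) x), ⟨sh (-1) x, XX_sh hx (-1), rfl⟩, ?_⟩
      rw [← hEs, hsh, sh_sh]
      norm_num [sh_zero]
  · -- injunctive
    intro τ hτ hsurj
    let f : (ℤ → Fin 5) → (ℤ → Fin 5) := fun x =>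
      if h : x ∈ XX then R (τ ⟨E x, ⟨x, h, rfl⟩⟩) else x
    have hf : ∀ x (h : x ∈ XX), f x = R (τ ⟨E x, ⟨x, h, rfl⟩⟩) := fun x h => dif_pos h
    have hmaps : MapsTo f XX XX := by
      intro x hx
      rw [hf x hx]
      exact hRm _
    have hcont : ContinuousOn f XX := by
      rw [continuousOn_iff_continuous_domRestrict]
      have h1 : Continuous fun x : XX => R (τ ⟨E x, ⟨x, x.2, rfl⟩⟩) := by
        refine hRc.comp (continuous_subtype_val.comp (hτ.1.comp ?_))
        exact Continuous.subtype_mk (hEc.comp continuous_subtype_val) _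
      convert h1 using 1
      funext x
      exact hf x x.2
    have hcomm : ∀ x ∈ XX, f (fun i => x (i + 1)) = fun i => f x (i + 1) := by
      intro x hx
      have hx1 : shift x ∈ XX := by rw [hsh]; exact XX_sh hx 1
      have h2 := hτ.2 ⟨E x, ⟨x, hx, rfl⟩⟩ ⟨E (shift x), ⟨shift x, hx1, rfl⟩⟩ rfl
      change f (shift x) = shift (f x)
      rw [hf _ hx1, hf _ hx, h2, hRs]
    have hse : SurjOn f XX XX := by
      intro y hy
      obtain ⟨⟨z, x, hx, rfl⟩, hz⟩ := hsurj ⟨E y, ⟨y, hy, rfl⟩⟩
      refine ⟨x, hx, ?_⟩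
      rw [hf x hx, hz, hRE]
    have hinj := Endo.inj ⟨hmaps, hcont, hcomm⟩ hse
    rintro ⟨y1, x1, hx1, rfl⟩ ⟨y2, x2, hx2, rfl⟩ h12
    have h3 : f x1 = f x2 := by rw [hf x1 hx1, hf x2 hx2, h12]
    have h4 := hinj hx1 hx2 h3
    subst h4
    rfl
  · -- not surjunctive
    intro hS
    let τ : (E '' XX) → (E '' XX) := fun y => ⟨E (TT (R y)), ⟨TT (R y), TT_maps (hRm y), rfl⟩⟩
    have hend : IsEndo (E '' XX) τ := by
      constructor
      · exact Continuous.subtype_mk (hEc.comp (TT_cont.comp (hRc.comp continuous_subtype_val))) _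
      · intro x y hxy
        change E (TT (R y)) = shift (E (TT (R x)))
        rw [hxy, hRs, ← hEs]
        rw [TT_shift]
    have hinj : Function.Injective τ := by
      intro y1 y2 h12
      have h1 : E (TT (R y1)) = E (TT (R y2)) := congrArg Subtype.val h12
      have h2 : TT (R y1) = TT (R y2) := by rw [← hRE (TT (R y1)), h1, hRE]
      have h3 : R y1 = R y2 := TT_inj (hRm y1) (hRm y2) h2
      apply Subtype.ext
      rw [← hER y1, ← hER y2, h3]
    apply TT_not_surj
    intro z hz
    obtain ⟨y, hy⟩ := hS τ hend hinj ⟨E z, ⟨z, hz, rfl⟩⟩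
    refine ⟨R y, hRm y, ?_⟩
    have h1 : E (TT (R y)) = E z := congrArg Subtype.val hy
    rw [← hRE (TT (R y)), h1, hRE]

end Pool.Agent.Results.MP_5b6163_an.CountableExample
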